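import Mathlib
import Pool.Agent.Lib.helper16.EmD

namespace Pool.Agent.Results.MP_12e089_an.Bounded
open Finset

/-- the grid `{1,…,Δ}^d` -/
abbrev Grid (Δ d : ℕ) : Type := Fin d → Finset.Icc 1 Δ

/-- the `ℓ₁` metric on the grid -/
noncomputable def l1 {Δ d : ℕ} (x y : Grid Δ d) : ℝ := ∑ i, |((x i : ℕ) : ℝ) - ((y i : ℕ) : ℝ)|

/-- the `ℓ₂` metric on the grid -/
noncomputable def l2 {Δ d : ℕ} (x y : Grid Δ d) : ℝ :=
  √(∑ i, (((x i : ℕ) : ℝ) - ((y i : ℕ) : ℝ)) ^ 2)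

open Classical in
/-- the uniform probability measure on a finite set `S` -/
noncomputable def unif {M : Type} (S : Finset M) (x : M) : ℝ := if x ∈ S then 1 / S.card else 0

/-- Wasserstein-1 distance: least cost of a coupling -/
noncomputable def W1 {M : Type} [Fintype M] (ρ : M → M → ℝ) (μ ν : M → ℝ) : ℝ :=
  sInf {c | ∃ π : M → M → ℝ, (∀ x y, 0 ≤ π x y) ∧ (∀ x, ∑ y, π x y = μ x) ∧
    (∀ y, ∑ x, π x y = ν y) ∧ c = ∑ x, ∑ y, π x y * ρ x y}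

/-- the uniform measures on `s`-point sets embed in some `ℓ₁^N` with distortion at most `D` -/
def Emb {M : Type} [Fintype M] (ρ : M → M → ℝ) (s : ℕ) (D : ℝ) : Prop :=
  ∃ (N : ℕ) (F : Finset M → Fin N → ℝ) (r : ℝ), 0 < r ∧ ∀ S T : Finset M, S.card = s → T.card = s →
    r * W1 ρ (unif S) (unif T) ≤ ∑ i, |F S i - F T i| ∧
      ∑ i, |F S i - F T i| ≤ D * r * W1 ρ (unif S) (unif T)

open Pool.Agent.Lib.helper16 EmA EmB EmD

lemma emb {M : Type} [Fintype M] {ρ ρ' : M → M → ℝ} {δ : Finset M → Finset M → ℝ} {s : ℕ} {C : ℝ}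
    (hs : 1 ≤ s) (hC : 1 ≤ C) (h' : L1 ρ') (hδ : L1 δ) (hG : Good ρ' δ s C)
    (h1 : ∀ x y, ρ' x y ≤ ρ x y) (h2 : ∀ x y, ρ x y ≤ 4 * ρ' x y) : Emb ρ s (4 * C ^ 2) := by
  obtain ⟨ι, _, f, hf⟩ := hδ
  have s0 : (0 : ℝ) < s := by exact_mod_cast hs
  refine ⟨Fintype.card ι, fun S i => f ((Fintype.equivFin ι).symm i) S, s / (4 * C), by positivity,
    fun S T hS hT => ?_⟩
  rw [(Fintype.equivFin ι).symm.sum_comp fun i => |f i S - f i T|, ← hf]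
  have hc := hS.trans hT.symm
  obtain ⟨g1, g2⟩ := hG S T hc hS.le
  obtain ⟨σ, hσ, e⟩ := emd_ex ρ' hc
  obtain ⟨π, p0, p1, p2, p3⟩ := coup ρ hσ
  have a1 : W1 ρ (unif S) (unif T) ≤ cost ρ S σ / S.card := by
    refine csInf_le ⟨0, ?_⟩ ⟨π, p0, p1, p2, p3.symm⟩
    rintro _ ⟨π, p0, -, -, rfl⟩
    exact sum_nonneg fun x _ => sum_nonneg fun y _ =>
      mul_nonneg (p0 _ _) ((h'.nonneg _ _).trans (h1 _ _))
  have a2 : cost ρ S σ ≤ 4 * emd ρ' S T := by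
    rw [e, cost, cost, mul_sum]; exact sum_le_sum fun _ _ => h2 _ _
  have a3 : emd ρ' S T / s ≤ W1 ρ (unif S) (unif T) := by
    refine le_csInf ⟨_, π, p0, p1, p2, rfl⟩ ?_
    rintro _ ⟨π, p0, p1, p2, rfl⟩
    rw [div_le_iff₀' s0, ← hS]
    refine (birk ρ' hc (by omega) p0 p1 p2).trans (mul_le_mul_of_nonneg_left ?_ (by positivity))
    exact sum_le_sum fun x _ => sum_le_sum fun y _ => mul_le_mul_of_nonneg_left (h1 _ _) (p0 _ _)
  rw [hS, le_div_iff₀ s0] at a1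
  rw [div_le_iff₀ s0] at a3
  constructor
  · rw [div_mul_eq_mul_div, div_le_iff₀ (by positivity)]; linarith
  · have : 4 * C ^ 2 * (s / (4 * C)) * W1 ρ (unif S) (unif T) = C * (W1 ρ (unif S) (unif T) * s) := by
      field_simp
    rw [this]
    exact g1.trans (mul_le_mul_of_nonneg_left a3 (by positivity))

theorem result : ∃ f : ℕ → ℝ, ∀ s : ℕ, 1 ≤ s → 1 ≤ f s ∧ ∀ Δ d : ℕ,
    Emb (l1 (Δ := Δ) (d := d)) s (f s) ∧ Emb (l2 (Δ := Δ) (d := d)) s (f s) := by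
  choose C hC h using EmC.main
  refine ⟨fun s => 4 * C s ^ 2, fun s hs => ⟨by nlinarith [hC s], fun Δ d => ⟨?_, ?_⟩⟩⟩
  · have h1 : L1 (l1 (Δ := Δ) (d := d)) :=
      ⟨Fin d, inferInstance, fun i x => ((x i : ℕ) : ℝ), fun _ _ => rfl⟩
    obtain ⟨δ, h2, h3⟩ := h s _ _ h1
    exact emb hs (hC s) h1 h2 h3 (fun _ _ => le_rfl) fun x y => by linarith [h1.nonneg x y]
  · have h1 : L1 fun x y : Grid Δ d => (2 ^ d : ℝ)⁻¹ * ∑ ε : Fin d → Bool,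
        |∑ i, sg (ε i) * (((x i : ℕ) : ℝ) - ((y i : ℕ) : ℝ))| :=
      L1.smul ⟨Fin d → Bool, inferInstance, fun ε x => ∑ i, sg (ε i) * ((x i : ℕ) : ℝ),
        fun _ _ => by simp only [mul_sub, sum_sub_distrib]⟩ (by positivity)
    obtain ⟨δ, h2, h3⟩ := h s _ _ h1
    exact emb hs (hC s) h1 h2 h3 (fun _ _ => (khin d _).1) fun _ _ => (khin d _).2

end Pool.Agent.Results.MP_12e089_an.Bounded
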